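import Mathlib

/-!
# A negative-type inequality for a set distance

For finite sets `A, B` put `setDist A B = sqrt (|A \ B|^2 + |B \ A|^2)`.
We show that the negative-type inequality for two families of `m` distinct subsets of a finite
set holds (for all finite ground sets and all pairs of families) exactly when `m ≤ 2`.
In particular the answer to the question is negative.
-/

namespace Pool.Agent.Results.MP_314109_co.SharpThreshold

open Finset

/-- The set distance `d(A,B) = sqrt (|A \ B|^2 + |B \ A|^2)`. -/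
noncomputable def setDist {X : Type} [DecidableEq X] (A B : Finset X) : ℝ :=
  Real.sqrt (((A \ B).card : ℝ) ^ 2 + ((B \ A).card : ℝ) ^ 2)

section basic

variable {X Y : Type} [DecidableEq X] [DecidableEq Y]

lemma setDist_comm (A B : Finset X) : setDist A B = setDist B A := by
  unfold setDist
  rw [add_comm]

lemma setDist_self (A : Finset X) : setDist A A = 0 := by
  simp [setDist]

lemma setDist_nonneg (A B : Finset X) : 0 ≤ setDist A B := Real.sqrt_nonneg _

lemma setDist_map (e : X ↪ Y) (A B : Finset X) :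
    setDist (A.map e) (B.map e) = setDist A B := by
  unfold setDist
  rw [← Finset.map_sdiff, ← Finset.map_sdiff, Finset.card_map, Finset.card_map]

lemma card_sdiff_tri (A B C : Finset X) :
    (A \ C).card ≤ (A \ B).card + (B \ C).card := by
  calc (A \ C).card ≤ ((A \ B) ∪ (B \ C)).card := by
        apply Finset.card_le_card
        intro x hx
        simp only [mem_sdiff, mem_union] at hx ⊢
        tauto
    _ ≤ _ := Finset.card_union_le _ _

/-- Minkowski's inequality in the plane. -/
lemma sqrt_tri (a b c d : ℝ) :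
    Real.sqrt ((a + c) ^ 2 + (b + d) ^ 2) ≤ Real.sqrt (a ^ 2 + b ^ 2) + Real.sqrt (c ^ 2 + d ^ 2) := by
  have h1 := Real.sqrt_nonneg (a ^ 2 + b ^ 2)
  have h2 := Real.sqrt_nonneg (c ^ 2 + d ^ 2)
  have s1 := Real.sq_sqrt (by positivity : (0 : ℝ) ≤ a ^ 2 + b ^ 2)
  have s2 := Real.sq_sqrt (by positivity : (0 : ℝ) ≤ c ^ 2 + d ^ 2)
  apply Real.sqrt_le_iff.mpr
  refine ⟨by positivity, ?_⟩
  have key : a * c + b * d ≤ Real.sqrt (a ^ 2 + b ^ 2) * Real.sqrt (c ^ 2 + d ^ 2) := by
    have hsq : (a * c + b * d) ^ 2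
        ≤ (Real.sqrt (a ^ 2 + b ^ 2) * Real.sqrt (c ^ 2 + d ^ 2)) ^ 2 := by
      rw [mul_pow, s1, s2]
      nlinarith [sq_nonneg (a * d - b * c)]
    exact le_of_abs_le (abs_le_of_sq_le_sq hsq (by positivity))
  nlinarith

lemma setDist_triangle (A B C : Finset X) : setDist A C ≤ setDist A B + setDist B C := by
  unfold setDist
  refine le_trans ?_ (sqrt_tri _ _ _ _)
  apply Real.sqrt_le_sqrt
  have h1 : ((A \ C).card : ℝ) ≤ (A \ B).card + (B \ C).card := by
    exact_mod_cast card_sdiff_tri A B C
  have h2 : ((C \ A).card : ℝ) ≤ (B \ A).card + (C \ B).card := by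
    have := card_sdiff_tri C B A
    rw [add_comm] at this
    exact_mod_cast this
  gcongr

end basic

/-- A pair sum is half of the full double sum. -/
lemma pair_sum {m : ℕ} (f : Fin m → Fin m → ℝ) (hs : ∀ i j, f i j = f j i)
    (h0 : ∀ i, f i i = 0) :
    (∑ i, ∑ j, f i j) = 2 * ∑ i, ∑ j ∈ Finset.Ioi i, f i j := by
  have h1 : (∑ i, ∑ j, f i j)
      = (∑ i, ∑ j ∈ Finset.Ioi i, f i j) + ∑ i, ∑ j ∈ Finset.Iio i, f i j := by
    rw [← Finset.sum_add_distrib]
    apply Finset.sum_congr rfl
    intro i _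
    have hdisj : Disjoint (Finset.Ioi i) (Finset.Iio i) := by
      rw [Finset.disjoint_left]
      intro a ha hb
      simp only [mem_Ioi, mem_Iio] at ha hb
      exact absurd ha (not_lt.mpr hb.le)
    rw [← Finset.sum_union hdisj]
    symm
    apply Finset.sum_subset (Finset.subset_univ _)
    intro x _ hx
    have : x = i := by
      simp only [mem_union, mem_Ioi, mem_Iio, not_or, not_lt] at hx
      exact le_antisymm hx.1 hx.2
    rw [this, h0]
  have h2 : ∑ i, ∑ j ∈ Finset.Iio i, f i j = ∑ i, ∑ j ∈ Finset.Ioi i, f i j := by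
    rw [Finset.sum_comm' (s' := fun y => Finset.Ioi y) (t' := Finset.univ)]
    · apply Finset.sum_congr rfl
      intro i _
      apply Finset.sum_congr rfl
      intro j _
      exact hs _ _
    · intro x y
      simp
  rw [h1, h2]
  ring

/-- The base families on seven points. -/
def a0 : Fin 3 → Finset (Fin 7) := ![{1, 2, 5}, {0, 1, 2, 5}, {3, 4, 6}]

/-- The base families on seven points. -/
def b0 : Fin 3 → Finset (Fin 7) := ![{1, 2, 4}, {1, 3, 5}, {0, 2, 5, 6}]

lemma dist_val {X : Type} [DecidableEq X] (A B : Finset X) (x y : ℕ)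
    (hx : (A \ B).card = x) (hy : (B \ A).card = y) :
    setDist A B = Real.sqrt ((x : ℝ) ^ 2 + (y : ℝ) ^ 2) := by
  unfold setDist
  rw [hx, hy]

/-- The difference of the two sides for the base families is positive. -/
lemma base_ineq :
    2 * (∑ i, ∑ j, setDist (a0 i) (b0 j))
      < (∑ i, ∑ j, setDist (a0 i) (a0 j)) + ∑ i, ∑ j, setDist (b0 i) (b0 j) := by
  have haa : (∑ i, ∑ j, setDist (a0 i) (a0 j))
      = 2 * (Real.sqrt 1 + Real.sqrt 18 + Real.sqrt 25) := by
    simp only [Fin.sum_univ_three]
    rw [setDist_self, setDist_self, setDist_self, setDist_comm (a0 1) (a0 0),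
      setDist_comm (a0 2) (a0 0), setDist_comm (a0 2) (a0 1),
      dist_val (a0 0) (a0 1) 0 1 (by decide) (by decide),
      dist_val (a0 0) (a0 2) 3 3 (by decide) (by decide),
      dist_val (a0 1) (a0 2) 4 3 (by decide) (by decide)]
    norm_num
    ring
  have hbb : (∑ i, ∑ j, setDist (b0 i) (b0 j))
      = 2 * (Real.sqrt 8 + 2 * Real.sqrt 13) := by
    simp only [Fin.sum_univ_three]
    rw [setDist_self, setDist_self, setDist_self, setDist_comm (b0 1) (b0 0),
      setDist_comm (b0 2) (b0 0), setDist_comm (b0 2) (b0 1),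
      dist_val (b0 0) (b0 1) 2 2 (by decide) (by decide),
      dist_val (b0 0) (b0 2) 2 3 (by decide) (by decide),
      dist_val (b0 1) (b0 2) 2 3 (by decide) (by decide)]
    norm_num
    ring
  have hab : (∑ i, ∑ j, setDist (a0 i) (b0 j))
      = 3 * Real.sqrt 2 + 3 * Real.sqrt 5 + 2 * Real.sqrt 8 + Real.sqrt 13 := by
    simp only [Fin.sum_univ_three]
    rw [dist_val (a0 0) (b0 0) 1 1 (by decide) (by decide),
      dist_val (a0 0) (b0 1) 1 1 (by decide) (by decide),
      dist_val (a0 0) (b0 2) 1 2 (by decide) (by decide),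
      dist_val (a0 1) (b0 0) 2 1 (by decide) (by decide),
      dist_val (a0 1) (b0 1) 2 1 (by decide) (by decide),
      dist_val (a0 1) (b0 2) 1 1 (by decide) (by decide),
      dist_val (a0 2) (b0 0) 2 2 (by decide) (by decide),
      dist_val (a0 2) (b0 1) 2 2 (by decide) (by decide),
      dist_val (a0 2) (b0 2) 2 3 (by decide) (by decide)]
    norm_num
    ring
  rw [haa, hbb, hab]
  have h1 : Real.sqrt 1 = 1 := Real.sqrt_one
  have h25 : Real.sqrt 25 = 5 := by
    rw [show (25 : ℝ) = 5 ^ 2 by norm_num]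
    exact Real.sqrt_sq (by norm_num)
  have h18 : Real.sqrt 18 = 3 * Real.sqrt 2 := by
    rw [show (18 : ℝ) = 3 ^ 2 * 2 by norm_num, Real.sqrt_mul (by norm_num),
      Real.sqrt_sq (by norm_num)]
  have h8 : Real.sqrt 8 = 2 * Real.sqrt 2 := by
    rw [show (8 : ℝ) = 2 ^ 2 * 2 by norm_num, Real.sqrt_mul (by norm_num),
      Real.sqrt_sq (by norm_num)]
  have h2 : Real.sqrt 2 < 1.4143 := by
    rw [Real.sqrt_lt' (by norm_num)]
    norm_num
  have h5 : Real.sqrt 5 < 2.2361 := by
    rw [Real.sqrt_lt' (by norm_num)]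
    norm_num
  have h13 : 3.605 < Real.sqrt 13 := by
    rw [Real.lt_sqrt (by norm_num)]
    norm_num
  rw [h1, h25, h18, h8]
  linarith

/-- The embedding of the seven base points into the enlarged ground set. -/
def emb (k : ℕ) : Fin 7 ↪ Fin 7 ⊕ Fin k := ⟨Sum.inl, Sum.inl_injective⟩

/-- The enlarged family: three base sets and `k` extra singletons. -/
def ext (k : ℕ) (F : Fin 3 → Finset (Fin 7)) : Fin (3 + k) → Finset (Fin 7 ⊕ Fin k) :=
  Fin.append (fun i => (F i).map (emb k)) (fun j => {Sum.inr j})

lemma ext_injective (k : ℕ) (F : Fin 3 → Finset (Fin 7)) (hF : Function.Injective F)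
    (hne : ∀ i, (F i).Nonempty) : Function.Injective (ext k F) := by
  intro x y
  refine Fin.addCases (fun i => ?_) (fun i => ?_) x <;>
    refine Fin.addCases (fun j => ?_) (fun j => ?_) y
  · intro h
    simp only [ext, Fin.append_left] at h
    rw [hF (Finset.map_injective _ h)]
  · intro h
    exfalso
    simp only [ext, Fin.append_left, Fin.append_right] at h
    obtain ⟨a, ha⟩ := hne i
    have : emb k a ∈ ({Sum.inr j} : Finset (Fin 7 ⊕ Fin k)) := by
      rw [← h]
      exact Finset.mem_map_of_mem _ ha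
    simp [emb] at this
  · intro h
    exfalso
    simp only [ext, Fin.append_left, Fin.append_right] at h
    obtain ⟨a, ha⟩ := hne j
    have : emb k a ∈ ({Sum.inr i} : Finset (Fin 7 ⊕ Fin k)) := by
      rw [h]
      exact Finset.mem_map_of_mem _ ha
    simp [emb] at this
  · intro h
    simp only [ext, Fin.append_right] at h
    have h2 := Finset.singleton_injective h
    rw [Sum.inr_injective h2]

/-- The double sums over the enlarged families. -/
lemma ext_sum (k : ℕ) (F G : Fin 3 → Finset (Fin 7)) :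
    (∑ i, ∑ j, setDist (ext k F i) (ext k G j))
      = (∑ i, ∑ j, setDist (F i) (G j))
        + (∑ i, ∑ j : Fin k, setDist ((F i).map (emb k)) {Sum.inr j})
        + (∑ i, ∑ j : Fin k, setDist ((G i).map (emb k)) {Sum.inr j})
        + ∑ i : Fin k, ∑ j : Fin k,
            setDist ({Sum.inr i} : Finset (Fin 7 ⊕ Fin k)) {Sum.inr j} := by
  rw [Fin.sum_univ_add]
  simp only [Fin.sum_univ_add, ext, Fin.append_left, Fin.append_right, setDist_map,
    Finset.sum_add_distrib]
  have : (∑ x : Fin k, ∑ y : Fin 3, setDist ({Sum.inr x} : Finset (Fin 7 ⊕ Fin k))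
      ((G y).map (emb k)))
      = ∑ i, ∑ j : Fin k, setDist ((G i).map (emb k)) {Sum.inr j} := by
    rw [Finset.sum_comm]
    apply Finset.sum_congr rfl
    intro i _
    apply Finset.sum_congr rfl
    intro j _
    exact setDist_comm _ _
  rw [this]
  ring

lemma two_case {X : Type} [DecidableEq X] (A B : Fin 2 → Finset X) :
    (∑ i, ∑ j ∈ Finset.Ioi i, setDist (A i) (A j))
        + (∑ i, ∑ j ∈ Finset.Ioi i, setDist (B i) (B j))
      ≤ ∑ i, ∑ j, setDist (A i) (B j) := by
  have hA := pair_sum (fun i j => setDist (A i) (A j)) (fun i j => setDist_comm _ _)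
    (fun i => setDist_self _)
  have hB := pair_sum (fun i j => setDist (B i) (B j)) (fun i j => setDist_comm _ _)
    (fun i => setDist_self _)
  simp only [Fin.sum_univ_two, setDist_self] at hA hB
  rw [setDist_comm (A 1) (A 0)] at hA
  rw [setDist_comm (B 1) (B 0)] at hB
  have e1 : (∑ i, ∑ j ∈ Finset.Ioi i, setDist (A i) (A j)) = setDist (A 0) (A 1) := by
    rw [Fin.sum_univ_two]
    linarith
  have e2 : (∑ i, ∑ j ∈ Finset.Ioi i, setDist (B i) (B j)) = setDist (B 0) (B 1) := by
    rw [Fin.sum_univ_two]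
    linarith
  rw [e1, e2]
  simp only [Fin.sum_univ_two]
  have t1 := setDist_triangle (A 0) (B 0) (A 1)
  have t2 := setDist_triangle (A 0) (B 1) (A 1)
  have t3 := setDist_triangle (B 0) (A 0) (B 1)
  have t4 := setDist_triangle (B 0) (A 1) (B 1)
  rw [setDist_comm (B 0) (A 1)] at t1 t4
  rw [setDist_comm (B 1) (A 1)] at t2
  rw [setDist_comm (B 0) (A 0)] at t3
  linarith

/-- **Main theorem.** The negative-type inequality
`∑_{i<j} d(A_i,A_j) + ∑_{i<j} d(B_i,B_j) ≤ ∑_{i,j} d(A_i,B_j)` holds for every finite ground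
set and all pairs of families of `m` distinct subsets if and only if `m ≤ 2`. -/
theorem result (m : ℕ) :
    (∀ (X : Type) [Fintype X] [DecidableEq X] (A B : Fin m → Finset X),
      Function.Injective A → Function.Injective B →
      (∑ i, ∑ j ∈ Finset.Ioi i, setDist (A i) (A j))
          + (∑ i, ∑ j ∈ Finset.Ioi i, setDist (B i) (B j))
        ≤ ∑ i, ∑ j, setDist (A i) (B j)) ↔ m ≤ 2 := by
  constructor
  · intro h
    by_contra hm
    obtain ⟨k, rfl⟩ : ∃ k, m = 3 + k := ⟨m - 3, by omega⟩
    have hineq := h (Fin 7 ⊕ Fin k) (ext k a0) (ext k b0)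
      (ext_injective k a0 (by decide) (by decide)) (ext_injective k b0 (by decide) (by decide))
    have hA := pair_sum (fun i j => setDist (ext k a0 i) (ext k a0 j))
      (fun i j => setDist_comm _ _) (fun i => setDist_self _)
    have hB := pair_sum (fun i j => setDist (ext k b0 i) (ext k b0 j))
      (fun i j => setDist_comm _ _) (fun i => setDist_self _)
    have eA := ext_sum k a0 a0
    have eB := ext_sum k b0 b0
    have eAB := ext_sum k a0 b0
    have hb := base_ineq
    linarith
  · intro hm X _ _ A B _ _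
    interval_cases m
    · simp
    · simp [setDist_nonneg]
    · exact two_case A B

end Pool.Agent.Results.MP_314109_co.SharpThreshold
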